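import Pool.Agent.Lib.MP_8bd676_co_HC.Count

/-!
# Equal optimal separation on the sphere

`d n` is the largest possible minimum distance among `n` points of the unit sphere of `ℝ³`.

1. Let `n ≥ 3` and let `p` be an optimal configuration of `n` points. Then every closed half great
   circle meets a minimal arc: there are two points of the configuration at distance `d n` such
   that the minor arc between them meets the half great circle.
2. If `2 ≤ m < n` and `n - m ≥ 2 √n`, then `d n < d m`.
3. For every `N` at least `√N / 2 - 2` of the integers `3 ≤ n ≤ N` satisfy `d n < d (n - 1)`.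
-/

set_option autoImplicit false

open scoped RealInnerProductSpace

namespace Pool.Agent.Results.MP_8bd676_co.RunsOfEquality

/-- The largest possible minimum distance among `n` points of the unit sphere. -/
noncomputable def d (n : ℕ) : ℝ :=
  sSup {δ : ℝ | ∃ p : Fin n → EuclideanSpace ℝ (Fin 3),
    (∀ i, ‖p i‖ = 1) ∧ ∀ i j, i ≠ j → δ ≤ dist (p i) (p j)}

private theorem d_eq (n : ℕ) : d n = HC.sep n := rfl

theorem result :
    (∀ n : ℕ, 3 ≤ n → ∀ p : Fin n → EuclideanSpace ℝ (Fin 3), (∀ i, ‖p i‖ = 1) →
      (∀ i j, i ≠ j → d n ≤ dist (p i) (p j)) →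
      ∀ w m : EuclideanSpace ℝ (Fin 3), ‖w‖ = 1 → ‖m‖ = 1 → ⟪w, m⟫ = 0 →
      ∃ i j, i ≠ j ∧ dist (p i) (p j) = d n ∧
        ∃ t : ℝ, 0 ≤ t ∧ t ≤ 1 ∧ (1 - t) • p i + t • p j ≠ 0 ∧
          ∃ α β : ℝ, 0 ≤ β ∧ (1 - t) • p i + t • p j = α • w + β • m) ∧
    (∀ m n : ℕ, 2 ≤ m → m < n → 2 * √(n : ℝ) ≤ (n : ℝ) - m → d n < d m) ∧
    (∀ N : ℕ, √(N : ℝ) / 2 - 2 ≤
      (((Finset.Icc 3 N).filter (fun n => d n < d (n - 1))).card : ℝ)) := by
  refine ⟨?_, ?_, ?_⟩
  · intro n hn p hp1 hp2 w m hw hm hwm
    have hc : HC.IsCode (HC.sep n) p := ⟨hp1, hp2⟩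
    obtain ⟨i, j, hij, hd, a, b, α, β, ha, hb, hab, hβ, he⟩ := HC.half_circle hn hc hw hm hwm
    refine ⟨i, j, hij, hd, b / (a + b), by positivity, ?_, ?_, α / (a + b), β / (a + b),
      by positivity, ?_⟩
    · rw [div_le_one hab]; linarith
    · intro h0
      have h1 : a • p i + b • p j = 0 := by
        have h2 : (a + b) • ((1 - b / (a + b)) • p i + (b / (a + b)) • p j) =
            a • p i + b • p j := by
          rw [smul_add, smul_smul, smul_smul]
          congr 2
          · field_simp; ring
          · field_simp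
        rw [← h2, h0, smul_zero]
      have h3 : a • p i = -(b • p j) := eq_neg_of_add_eq_zero_left h1
      have h4 : a = b := by
        have h5 := congrArg norm h3
        rw [norm_neg, norm_smul, norm_smul, hp1 i, hp1 j, mul_one, mul_one, Real.norm_of_nonneg ha,
          Real.norm_of_nonneg hb] at h5
        exact h5
      have hb0 : b ≠ 0 := by
        intro hb0
        rw [h4, hb0] at hab
        linarith
      have h5 : p j = -p i := by
        rw [h4] at h3
        have h6 : b • (p i + p j) = 0 := by rw [smul_add, h3]; simp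
        rcases smul_eq_zero.mp h6 with h7 | h7
        · exact absurd h7 hb0
        · exact eq_neg_of_add_eq_zero_right h7
      have h6 : dist (p i) (p j) = 2 := by
        rw [h5, dist_eq_norm, sub_neg_eq_add, ← two_smul ℝ, norm_smul, hp1 i]; norm_num
      have h7 : d n = 2 := by rw [d_eq, ← hd, h6]
      obtain ⟨k, hki, hkj⟩ : ∃ k : Fin n, k ≠ i ∧ k ≠ j := by
        have h8 : ({i, j} : Finset (Fin n)).card < (Finset.univ : Finset (Fin n)).card := by
          rw [Finset.card_univ, Fintype.card_fin]
          exact lt_of_le_of_lt Finset.card_le_two (by omega)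
        obtain ⟨k, _, hk⟩ := Finset.exists_mem_notMem_of_card_lt_card h8
        rw [Finset.mem_insert, Finset.mem_singleton, not_or] at hk
        exact ⟨k, hk.1, hk.2⟩
      have h8 := hp2 k i hki
      have h9 := hp2 k j hkj
      rw [h7, dist_eq_norm] at h8 h9
      rw [h5] at h9
      have h10 : ‖p k - p i‖ ^ 2 + ‖p k - -p i‖ ^ 2 = 4 := by
        rw [sub_neg_eq_add, norm_sub_sq_real, norm_add_sq_real, hp1 k, hp1 i]; ring
      nlinarith
    · have h2 : (1 - b / (a + b)) • p i + (b / (a + b)) • p j =
          (a + b)⁻¹ • (a • p i + b • p j) := by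
        rw [smul_add, smul_smul, smul_smul]
        congr 2
        · field_simp; ring
        · field_simp
      rw [h2, he, smul_add, smul_smul, smul_smul]
      congr 2 <;> ring
  · intro m n hm hmn h
    exact HC.sep_lt hm (by linarith) hmn
  · intro N
    exact HC.strict_card N

end Pool.Agent.Results.MP_8bd676_co.RunsOfEquality
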